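import Pool.Agent.Q304.SH.Strong

/-!
MP_999952_gt, Q1 (answer: yes, also in the strengthened form). In ZFC there is a homogeneous
zero-dimensional separable metrizable space which is not a countable union of strongly homogeneous
subspaces.
-/

namespace Pool.Agent.Results.MP_999952_gt.HomogeneousExample

open Pool.Agent.Q304.SH

/-- There is a subspace `X` of the Cantor set `(ℤ/2)^ℕ` which is homogeneous, but which is not the
union of countably many subspaces each of which is homeomorphic to all its nonempty clopen
subsets. -/
theorem result : ∃ X : Set (ℕ → ZMod 2),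
    (∀ x y : X, ∃ h : X ≃ₜ X, h x = y) ∧
    ∀ Y : ℕ → Set (ℕ → ZMod 2),
      (∀ n, ∀ U : Set (Y n), IsClopen U → U.Nonempty → Nonempty (U ≃ₜ Y n)) →
      X ≠ ⋃ n, Y n := by
  obtain ⟨p⟩ := exists_pts
  exact ⟨XA p, XA_homog p, fun Y hY => XA_not_union p Y hY⟩

end Pool.Agent.Results.MP_999952_gt.HomogeneousExample
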